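import Mathlib
import Pool.Agent.Lib.MP_145df4_lc.Defs
import Pool.Agent.Lib.MP_145df4_lc.SummDom

/-! `cofin` of the null ideal is at most the length of any increasing sequence of non-dominating
families closed under maxima whose union is dominating. -/

set_option autoImplicit false

namespace Pool.Agent.Results.MP_145df4_lc.DominatingBound

open Pool.Agent.Lib.MP_145df4_lc

theorem result (γ : Ordinal.{0}) (X : Ordinal.{0} → Set (ℕ → ℕ))
    (hmono : ∀ α β, α < β → β < γ → X α ⊆ X β)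
    (hmax : ∀ α < γ, ∀ f ∈ X α, ∀ g ∈ X α, (fun n => max (f n) (g n)) ∈ X α)
    (hnd : ∀ α < γ, ∃ f : ℕ → ℕ, ∀ g ∈ X α, ¬ ∀ᶠ n in Filter.atTop, f n ≤ g n)
    (hd : ∀ f : ℕ → ℕ, ∃ α < γ, ∃ g ∈ X α, ∀ᶠ n in Filter.atTop, f n ≤ g n) :
    ∃ δ ≤ γ, IsChainLength {A : Set (ℕ → Bool) |
      MeasureTheory.Measure.infinitePi
        (fun _ : ℕ => ProbabilityTheory.uniformOn (Set.univ : Set Bool)) A = 0} δ :=
  Summ.null_of_dom γ X hmono hmax hnd hd

end Pool.Agent.Results.MP_145df4_lc.DominatingBound
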