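import Mathlib
import Pool.Agent.Lib.MP_053343_lc.Defs
import Pool.Agent.Lib.MP_145df4_lc.Meagre
import Pool.Agent.Lib.MP_145df4_lc.NDefs
import Pool.Agent.Lib.MP_145df4_lc.Model2

/-! The answer for both ideals: `cofin = add` for the meager ideal, while
`add < cofin < cof` holds for the null ideal in a transitive model of ZFC. -/

set_option autoImplicit false

namespace Pool.Agent.Results.MP_145df4_lc.FullAnswer

open Pool.Agent.Lib.MP_053343_lc Pool.Agent.Lib.MP_145df4_lc

theorem result :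
    IsLeast {γ : Ordinal.{0} | IsChainLength {A : Set (ℕ → Bool) | IsMeagre A} γ}
      (add {A : Set (ℕ → Bool) | IsMeagre A}).ord ∧
    ∃ M : ZFSet.{0}, ModelZF M ∧ AC M ∧ ∃ a c f : ZFSet.{0},
      LeastOrd M (AddWit M) a ∧ LeastOrd M (ChainWit M) c ∧ LeastOrd M (CofWit M) f ∧
        a ∈ c ∧ c ∈ f :=
  ⟨⟨isChainLength_add_meagre, fun _ h => add_le_of_isChainLength h⟩, null_gaps⟩

end Pool.Agent.Results.MP_145df4_lc.FullAnswer
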