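import Mathlib
import Pool.Agent.Lib.MP_145df4_lc.Defs
import Pool.Agent.Lib.MP_145df4_lc.SummDefs
import Pool.Agent.Lib.MP_145df4_lc.SummMain

/-! `cofin` of the null ideal is the least length of a chain of ideals on the natural numbers
whose union is the summable ideal. -/

set_option autoImplicit false

namespace Pool.Agent.Results.MP_145df4_lc.SummableCofin

open Pool.Agent.Lib.MP_145df4_lc

theorem result : ∃ γ : Ordinal.{0},
    IsLeast {δ : Ordinal.{0} | IsChainLength {A : Set (ℕ → Bool) |
      MeasureTheory.Measure.infinitePi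
        (fun _ : ℕ => ProbabilityTheory.uniformOn (Set.univ : Set Bool)) A = 0} δ} γ ∧
    IsLeast {δ : Ordinal.{0} | IsNatChainLength
      {T : Set ℕ | Summable (T.indicator fun n => (1 : ℝ) / ((n : ℝ) + 1))} δ} γ :=
  Summ.cofin_null_eq

end Pool.Agent.Results.MP_145df4_lc.SummableCofin
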